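import Pool.Agent.Lib.MP_c052b4_al.Mg.G002
import Pool.Agent.Lib.MP_c052b4_al.Mg.G040
import Pool.Agent.Lib.MP_c052b4_al.Mg.G013

/-!
# Torsionfree groups of affine automorphisms
-/

set_option autoImplicit false

namespace Pool.Agent.Lib.MP_c052b4_al.JK

open MvPolynomial

universe u

theorem hk_linear (A : Type u) [CommRing A] (N : ℕ) (hN : 0 < N) (hA : (N : A) = 0)
    (G : Type u) [Group G] (rho : G →* GL (Fin 2) A) (hrho : Function.Injective rho)
    (htf : ∀ g : G, IsOfFinOrder g → g = 1) : HK.{u} G := by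
  refine MT.hk_of_fg fun H hH => ?_
  have hFG : Group.FG H := (Group.fg_iff_subgroup_fg H).2 hH
  refine MT.hk_of_hasTrees (MT.L.lin_trees A N hN hA H (rho.comp H.subtype)
    (hrho.comp H.subtype_injective) fun g hg => ?_)
  exact Subtype.ext (htf g ((Submonoid.isOfFinOrder_coe (H := H.toSubmonoid)).2 hg))

variable {K : Type u} [Field K]

theorem hk_aff (p : ℕ) (hp : 0 < p) [CharP K p] (H : Type u) [Group H] (f : H →* AutA K)
    (hf : Function.Injective f) (him : ∀ h, f h ∈ Aff K)
    (htf : ∀ h : H, IsOfFinOrder h → h = 1) : HK.{u} H := by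
  let m : H →* Matrix (Fin 2) (Fin 2) K :=
    { toFun := fun h => linMat (f h)
      map_one' := by rw [map_one, linMat_one]
      map_mul' := fun a b => by rw [map_mul, linMat_mul _ _ (him a) (him b)] }
  have hinj : Function.Injective m.toHomUnits := by
    rw [injective_iff_map_eq_one]
    intro h hh
    have h1 : linMat (f h) = 1 := congrArg Units.val hh
    have h2 := pow_eq_one_of_linMat p (f h) (him h) h1
    rw [← map_pow] at h2
    have h3 : h ^ p = 1 := hf (h2.trans (map_one f).symm)
    exact htf h (isOfFinOrder_iff_pow_eq_one.2 ⟨p, hp, h3⟩)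
  exact hk_linear K p hp (CharP.cast_eq_zero K p) H m.toHomUnits hinj htf

end Pool.Agent.Lib.MP_c052b4_al.JK
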