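import Pool.Agent.Lib.MP_c052b4_al.Mg.G010
import Pool.Agent.Lib.MP_c052b4_al.JK.LinV
import Pool.Agent.Lib.MP_c052b4_al.Mg.G011
import Pool.Agent.Lib.MP_c052b4_al.Mg.G062
import Pool.Agent.Lib.MP_c052b4_al.Mg.G001

/-!
# Torsionfree groups of automorphisms of the polynomial ring in two variables
-/

set_option autoImplicit false

namespace Pool.Agent.Lib.MP_c052b4_al.JK

open MvPolynomial MulAction

universe u

/-- Theorem for algebraically closed fields. -/
theorem hk_aut_closed (K : Type u) [Field K] [IsAlgClosed K] (p : ℕ) (hp : 0 < p) [CharP K p]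
    (G : Type u) [Group G] (htf : ∀ g : G, IsOfFinOrder g → g = 1) (f : G →* AutA K)
    (hf : Function.Injective f) : HK.{u} G := by
  let _ : MulAction G (VT K) := MulAction.compHom (VT K) f
  let T : TreeAction G (VT K) := (jTree (K := K)).comp f
  -- conjugation
  have hsub : ∀ (H : Subgroup G), ∀ h : H, IsOfFinOrder h → h = 1 := fun H h hh =>
    Subtype.ext (htf h ((Submonoid.isOfFinOrder_coe (H := H.toSubmonoid)).2 hh))
  have hmem : ∀ (S : Subgroup (AutA K)) (s : AutA K) (h : G),
      ((f h * s : AutA K) : AutA K ⧸ S) = (s : AutA K ⧸ S) → s⁻¹ * f h * s ∈ S := by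
    intro S s h hh
    have h1 := QuotientGroup.eq.1 hh.symm
    rwa [← mul_assoc] at h1
  have hconj : ∀ (H : Subgroup G) (s : AutA K),
      ∃ f' : H →* AutA K, Function.Injective f' ∧ ∀ h : H, f' h = s⁻¹ * f h * s := by
    intro H s
    refine ⟨((MulAut.conj s⁻¹).toMonoidHom.comp f).comp H.subtype,
      ((MulAut.conj s⁻¹).injective.comp hf).comp H.subtype_injective, fun h => ?_⟩
    show s⁻¹ * f h * s⁻¹⁻¹ = _
    rw [inv_inv]
  have hA : ∀ s : AutA K, HK.{u} (stabilizer G (Sum.inl (s : AutA K ⧸ Aff K) : VT K)) := by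
    intro s
    obtain ⟨f', hf', h1⟩ := hconj (stabilizer G (Sum.inl (s : AutA K ⧸ Aff K) : VT K)) s
    refine hk_aff p hp _ f' hf' (fun h => ?_) (hsub _)
    rw [h1]
    exact hmem _ _ _ (Sum.inl_injective h.2)
  have hT : ∀ (H : Subgroup G) (s : AutA K),
      (∀ h ∈ H, h • (Sum.inr (s : AutA K ⧸ Tri K) : VT K) = Sum.inr (s : AutA K ⧸ Tri K)) →
      Wald.{u} H := by
    intro H s hH
    obtain ⟨f', hf', h1⟩ := hconj H s
    refine wald_of_comm _ (comm_of_tri p hp _ f' hf' (fun h => ?_) (hsub _)) (hsub _)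
    rw [h1]
    exact hmem _ _ _ (Sum.inr_injective (hH h h.2))
  refine hk_of_tree_wald T (fun v => ?_) fun x y hxy => ?_
  · rcases v with q | q
    · obtain ⟨s, rfl⟩ := QuotientGroup.mk_surjective q
      exact hA s
    · obtain ⟨s, rfl⟩ := QuotientGroup.mk_surjective q
      exact (hT _ s fun h hh => hh).hk
  · obtain ⟨s, ⟨rfl, rfl⟩ | ⟨rfl, rfl⟩⟩ := hxy
    · exact hT _ s fun h hh => hh.2
    · exact hT _ s fun h hh => hh.1

/-- **Theorem JK.** Torsionfree groups of automorphisms of `R[x, y]`, where `R` is a domain of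
positive characteristic. -/
theorem hk_aut (R : Type u) [CommRing R] [IsDomain R] (p : ℕ) (hp : 0 < p) [CharP R p]
    (G : Type u) [Group G] (htf : ∀ g : G, IsOfFinOrder g → g = 1)
    (f : G →* (MvPolynomial (Fin 2) R ≃ₐ[R] MvPolynomial (Fin 2) R))
    (hf : Function.Injective f) : HK.{u} G := by
  have hinj : Function.Injective (algebraMap R (AlgebraicClosure (FractionRing R))) := by
    rw [IsScalarTower.algebraMap_eq R (FractionRing R) (AlgebraicClosure (FractionRing R)),
      RingHom.coe_comp]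
    exact (algebraMap (FractionRing R) (AlgebraicClosure (FractionRing R))).injective.comp
      (IsFractionRing.injective R (FractionRing R))
  obtain ⟨b, hb⟩ := exists_baseChange (algebraMap R (AlgebraicClosure (FractionRing R))) hinj
  have hchar : CharP (AlgebraicClosure (FractionRing R)) p := charP_of_injective_algebraMap hinj p
  exact hk_aut_closed (AlgebraicClosure (FractionRing R)) p hp G htf (b.comp f) (hb.comp hf)

end Pool.Agent.Lib.MP_c052b4_al.JK
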